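import Pool.Agent.H25.WO4

namespace Pool.Agent.Results.MP_f8e4dc_lc.Counter

open FirstOrder FirstOrder.Language Pool.Agent.H25.WO

/-- A complete theory such that over every model `U` (in particular over every monster model)
there are `∅`-invariant complete types `p₀, p₁, q` with `p₀ ⊥ʷ q`, `p₁ ⊥ʷ q`, and
`p₀ ⊗ p₁` not weakly orthogonal to `q`. -/
theorem result : ∃ (L : FirstOrder.Language.{0, 0}) (T : L.Theory), T.IsComplete ∧
    ∀ (U : Type) [L.Structure U] [U ⊨ T],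
      ∃ (p₀ p₁ q : Set (L.Formula (U ⊕ Unit))) (r : Set (L.Formula (U ⊕ (Unit ⊕ Unit)))),
        IsType p₀ ∧ IsType p₁ ∧ IsType q ∧ Inv ∅ p₀ ∧ Inv ∅ p₁ ∧ Inv ∅ q ∧
        WOrth p₀ q ∧ WOrth p₁ q ∧ IsTensor ∅ p₀ p₁ r ∧ ¬ WOrth r q :=
  ⟨LW, TW, completeTheory.isComplete LW M0, fun U _ _ =>
    ⟨pT U 0, pT U 1, pT U 2, rT U False, ⟨_, _, _, _, rfl⟩, ⟨_, _, _, _, rfl⟩, ⟨_, _, _, _, rfl⟩,
      inv 0, inv 1, inv 2, worth 0 (by decide), worth 1 (by decide), tensor, not_worth⟩⟩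

end Pool.Agent.Results.MP_f8e4dc_lc.Counter
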